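import Mathlib

/-!
MP_73177d_nt: half waves. A number `x` is good at the scale `s` if the fractional part of `x / s` is at most `1 / 2`.
`Wv s ε m x`: `x` lies in the half wave `[m s, m s + s / 2]` shrunk by `ε` on both sides.
-/

set_option autoImplicit false

namespace Pool.Agent.Helper46.TB

/-- the half wave shrunk by `ε` on both sides -/
def Wv (s ε : ℝ) (m : ℤ) (x : ℝ) : Prop := m * s + ε ≤ x ∧ x ≤ m * s + s / 2 - ε

/-- good at the scale `s` -/
def Gd (s x : ℝ) : Prop := ∃ m : ℤ, Wv s 0 m x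

/-- an interval that is at least as long as the gaps meets a shrunk half wave -/
theorem meet {u ε l h : ℝ} (hu : 0 < u) (hε : 4 * ε ≤ u) (hlen : u / 2 + 2 * ε ≤ h - l) (hε0 : 0 ≤ ε) :
    ∃ (m : ℤ) (x : ℝ), l ≤ x ∧ x ≤ h ∧ Wv u ε m x := by
  obtain ⟨j, hj⟩ : ∃ j : ℤ, j = ⌊(l - ε) / u⌋ := ⟨_, rfl⟩
  have h1 : (j : ℝ) * u ≤ l - ε := by
    have := Int.floor_le ((l - ε) / u)
    rw [← hj] at this
    rwa [le_div_iff₀ hu] at this
  have h2 : l - ε < (j + 1) * u := by
    have := Int.lt_floor_add_one ((l - ε) / u)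
    rw [← hj] at this
    rwa [div_lt_iff₀ hu] at this
  by_cases h3 : l ≤ j * u + u / 2 - ε
  · exact ⟨j, l, le_rfl, by linarith, by linarith, h3⟩
  · push Not at h3
    refine ⟨j + 1, (j + 1) * u + ε, by linarith, by linarith, ?_, ?_⟩
    · push_cast
      exact le_rfl
    · push_cast
      linarith

/-- sub-waves of odd index span the wave: an interval that meets the wave and is at least as long as the gaps
meets a sub-wave -/
theorem sub {u ε l h x : ℝ} (hu : 0 < u) (hε : 4 * ε ≤ u) (hε0 : 0 ≤ ε) (c : ℕ) (m : ℤ)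
    (hx : Wv ((2 * c + 1) * u) ε m x) (hl : l ≤ x) (hh : x ≤ h) (hlen : u / 2 + 2 * ε ≤ h - l) :
    ∃ (m1 : ℤ) (x1 : ℝ), l ≤ x1 ∧ x1 ≤ h ∧ Wv u ε m1 x1 ∧
      ∀ y, Wv u 0 m1 y → Wv ((2 * c + 1) * u) 0 m y := by
  obtain ⟨hx1, hx2⟩ := hx
  obtain ⟨s, hs⟩ : ∃ s : ℝ, s = m * ((2 * c + 1) * u) := ⟨_, rfl⟩
  rw [← hs] at hx1 hx2
  obtain ⟨j, hj⟩ : ∃ j : ℤ, j = ⌊(x - s - ε) / u⌋ := ⟨_, rfl⟩
  have h1 : (j : ℝ) * u ≤ x - s - ε := by
    have := Int.floor_le ((x - s - ε) / u)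
    rw [← hj] at this
    rwa [le_div_iff₀ hu] at this
  have h2 : x - s - ε < (j + 1) * u := by
    have := Int.lt_floor_add_one ((x - s - ε) / u)
    rw [← hj] at this
    rwa [div_lt_iff₀ hu] at this
  have hj0 : 0 ≤ j := by
    rw [hj]
    exact Int.floor_nonneg.2 (div_nonneg (by linarith) hu.le)
  have hin : ∀ i : ℤ, 0 ≤ i → i ≤ c → ∀ y, Wv u 0 (m * (2 * c + 1) + i) y →
      Wv ((2 * c + 1) * u) 0 m y := by
    rintro i hi0 hic y ⟨hy1, hy2⟩
    have e : ((m * (2 * c + 1) + i : ℤ) : ℝ) * u = s + i * u := by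
      rw [hs]
      push_cast
      ring
    rw [e] at hy1 hy2
    have hi0' : (0 : ℝ) ≤ i := by exact_mod_cast hi0
    have hic' : (i : ℝ) ≤ c := by exact_mod_cast hic
    have h5 : (0 : ℝ) ≤ i * u := mul_nonneg hi0' hu.le
    have h6 : (i : ℝ) * u ≤ c * u := mul_le_mul_of_nonneg_right hic' hu.le
    refine ⟨?_, ?_⟩
    · rw [← hs]
      linarith
    · rw [← hs]
      linarith
  have ev : ∀ i : ℤ, ((m * (2 * c + 1) + i : ℤ) : ℝ) * u = s + i * u := by
    intro i
    rw [hs]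
    push_cast
    ring
  by_cases h3 : x ≤ s + j * u + u / 2 - ε
  · have hjc : j ≤ c := by
      have h4 : (j : ℝ) * u < (c + 1) * u := by linarith
      have h5 : (j : ℝ) < c + 1 := lt_of_mul_lt_mul_right h4 hu.le
      have h6 : j < (c : ℤ) + 1 := by exact_mod_cast h5
      omega
    refine ⟨m * (2 * c + 1) + j, x, hl, hh, ?_, hin j hj0 hjc⟩
    unfold Wv
    rw [ev]
    exact ⟨by linarith, h3⟩
  · push Not at h3
    have hjc : j + 1 ≤ c := by
      have h4 : (j : ℝ) * u < c * u := by linarith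
      have h5 : (j : ℝ) < c := lt_of_mul_lt_mul_right h4 hu.le
      have h6 : j < (c : ℤ) := by exact_mod_cast h5
      omega
    by_cases h7 : l ≤ s + j * u + u / 2 - ε
    · refine ⟨m * (2 * c + 1) + j, s + j * u + u / 2 - ε, h7, by linarith, ?_,
        hin j hj0 (by omega)⟩
      unfold Wv
      rw [ev]
      exact ⟨by linarith, le_rfl⟩
    · push Not at h7
      refine ⟨m * (2 * c + 1) + (j + 1), s + (j + 1) * u + ε, by linarith, by linarith, ?_,
        hin (j + 1) (by omega) hjc⟩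
      unfold Wv
      rw [ev]
      push_cast
      exact ⟨le_rfl, by linarith⟩

end Pool.Agent.Helper46.TB
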