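import Pool.Agent.Helper97.TB.Window
import Pool.Agent.Helper46.TB.Wave

/-!
MP_73177d_nt: windows in which the scales of the first base are all kept (waves not shrunk), while the waves of the
second base are shrunk on both sides.
-/

set_option autoImplicit false

namespace Pool.Agent.Helper46.TB

/-- one step: the next scale `b ^ j'` of a base below the current scale `b ^ a` -/
theorem step {b : ℕ} (hb : Odd b) {j' a : ℕ} (hja : j' < a) {ε l h x : ℝ} (hε0 : 0 ≤ ε)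
    (hε : 4 * ε ≤ (b : ℝ) ^ j') (m : ℤ) (hx : Wv ((b : ℝ) ^ a) ε m x) (hl : l ≤ x) (hh : x ≤ h)
    (hlen : (b : ℝ) ^ j' / 2 + 2 * ε ≤ h - l) :
    ∃ (m1 : ℤ) (x1 : ℝ), l ≤ x1 ∧ x1 ≤ h ∧ Wv ((b : ℝ) ^ j') ε m1 x1 ∧
      ∀ y, Wv ((b : ℝ) ^ j') 0 m1 y → Wv ((b : ℝ) ^ a) 0 m y := by
  have hb0 : 0 < b := hb.pos
  obtain ⟨c, hc⟩ : Odd (b ^ (a - j')) := hb.pow
  have e : (b : ℝ) ^ a = (2 * c + 1) * (b : ℝ) ^ j' := by
    have h1 : (b : ℝ) ^ a = (b : ℝ) ^ (a - j') * (b : ℝ) ^ j' := by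
      rw [← pow_add]
      congr 1
      omega
    rw [h1]
    have h2 : (b : ℝ) ^ (a - j') = 2 * c + 1 := by exact_mod_cast hc
    rw [h2]
  rw [e] at hx ⊢
  exact sub (by positivity) hε hε0 c m hx hl hh hlen

theorem win {p q : ℕ} (hp : Odd p) (hq : Odd q) (hp1 : 1 < p) (hq1 : 1 < q) {δ : ℝ}
    (hδ : 0 ≤ δ) (K : ℕ → Prop) (hK4 : ∀ j, K j → 4 * δ ≤ (q : ℝ) ^ j)
    (hsep : ∀ j, K j → ∀ i, ((p : ℝ) ^ i ≤ (q : ℝ) ^ j → (p : ℝ) ^ i + 4 * δ ≤ (q : ℝ) ^ j) ∧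
      ((q : ℝ) ^ j ≤ (p : ℝ) ^ i → (q : ℝ) ^ j + 4 * δ ≤ (p : ℝ) ^ i)) (i2 : ℕ) :
    ∀ (N i a j : ℕ), i + j = N → i2 ≤ i → K a → j ≤ a →
      (i2 < i → (p : ℝ) ^ (i - 1) ≤ (q : ℝ) ^ a) → (∀ j' < j, (q : ℝ) ^ j' ≤ (p : ℝ) ^ i) →
      ∀ m m' : ℤ, (∃ x, Wv ((p : ℝ) ^ i) 0 m x ∧ Wv ((q : ℝ) ^ a) δ m' x) →
      ∃ (k k' : ℤ) (b : ℕ), K b ∧ (∃ x, Wv ((p : ℝ) ^ i2) 0 k x ∧ Wv ((q : ℝ) ^ b) δ k' x) ∧
        (∀ y, Wv ((p : ℝ) ^ i2) 0 k y → Wv ((p : ℝ) ^ i) 0 m y ∧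
          ∀ i', i2 ≤ i' → i' ≤ i → Gd ((p : ℝ) ^ i') y) ∧
        (∀ y, Wv ((q : ℝ) ^ b) 0 k' y → Wv ((q : ℝ) ^ a) 0 m' y ∧
          ∀ j' < j, K j' → Gd ((q : ℝ) ^ j') y) := by
  have hpR : (1 : ℝ) ≤ p := by exact_mod_cast hp1.le
  have hqR : (1 : ℝ) ≤ q := by exact_mod_cast hq1.le
  intro N
  induction N with
  | zero =>
    intro i a j hN hi hKa hja h1 h2 m m' hx
    have hi0 : i = 0 := by omega
    have hj0 : j = 0 := by omega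
    have hi20 : i2 = i := by omega
    subst hi20
    subst hj0
    refine ⟨m, m', a, hKa, hx, fun y hy => ⟨hy, ?_⟩, fun y hy => ⟨hy, ?_⟩⟩
    · intro i' h3 h4
      have : i' = i2 := le_antisymm h4 h3
      subst this
      exact ⟨m, hy⟩
    · intro j' hj'
      omega
  | succ N ih =>
    intro i a j hN hi hKa hja h1 h2 m m' hx
    -- processing the next scale of the first base
    have stepP : i2 < i → (∀ j' < j, (q : ℝ) ^ j' ≤ (p : ℝ) ^ (i - 1)) →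
        ∃ (k k' : ℤ) (b : ℕ), K b ∧ (∃ x, Wv ((p : ℝ) ^ i2) 0 k x ∧ Wv ((q : ℝ) ^ b) δ k' x) ∧
        (∀ y, Wv ((p : ℝ) ^ i2) 0 k y → Wv ((p : ℝ) ^ i) 0 m y ∧
          ∀ i', i2 ≤ i' → i' ≤ i → Gd ((p : ℝ) ^ i') y) ∧
        (∀ y, Wv ((q : ℝ) ^ b) 0 k' y → Wv ((q : ℝ) ^ a) 0 m' y ∧
          ∀ j' < j, K j' → Gd ((q : ℝ) ^ j') y) := by
      intro hlt hj'
      obtain ⟨x, hx1, hx2⟩ := hx
      have h3 := h1 hlt
      have h4 := (hsep a hKa (i - 1)).1 h3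
      obtain ⟨m1, x1, g1, g2, g3, g4⟩ := step hp (show i - 1 < i by omega) (ε := 0) le_rfl
        (by rw [mul_zero]; positivity) m hx1 hx2.1 hx2.2 (by linarith)
      obtain ⟨k, k', b, e1, e2, e3, e4⟩ := ih (i - 1) a j (by omega) (by omega) hKa hja
        (fun h5 => (pow_le_pow_right₀ hpR (by omega)).trans h3) hj' m1 m' ⟨x1, g3, g1, g2⟩
      refine ⟨k, k', b, e1, e2, fun y hy => ?_, e4⟩
      obtain ⟨f1, f2⟩ := e3 y hy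
      refine ⟨g4 y f1, fun i' h5 h6 => ?_⟩
      rcases Nat.lt_or_ge i' i with h7 | h7
      · exact f2 i' h5 (by omega)
      · have : i' = i := le_antisymm h6 h7
        subst this
        exact ⟨m, g4 y f1⟩
    rcases j with _ | j
    · rcases Nat.lt_or_ge i2 i with hlt | hge
      · exact stepP hlt (fun j' hj' => by omega)
      · have hi20 : i2 = i := le_antisymm hi hge
        subst hi20
        refine ⟨m, m', a, hKa, hx, fun y hy => ⟨hy, ?_⟩, fun y hy => ⟨hy, ?_⟩⟩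
        · intro i' h3 h4
          have : i' = i2 := le_antisymm h4 h3
          subst this
          exact ⟨m, hy⟩
        · intro j' hj'
          omega
    · by_cases hKj : K j
      · by_cases hcase : i2 < i ∧ (q : ℝ) ^ j ≤ (p : ℝ) ^ (i - 1)
        · exact stepP hcase.1 fun j' hj' =>
            (pow_le_pow_right₀ hqR (by omega)).trans hcase.2
        · -- processing the next scale of the second base
          obtain ⟨x, hx1, hx2⟩ := hx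
          have h3 : (q : ℝ) ^ j ≤ (p : ℝ) ^ i := h2 j (by omega)
          have h4 := (hsep j hKj i).2 h3
          have hx1' := hx1
          obtain ⟨hx3, hx4⟩ := hx1'
          obtain ⟨m1, x1, g1, g2, g3, g4⟩ := step hq (show j < a by omega) hδ (hK4 j hKj) m' hx2
            hx3 hx4 (by linarith)
          obtain ⟨k, k', b, e1, e2, e3, e4⟩ := ih i j j (by omega) hi hKj le_rfl
            (fun h5 => by
              have h6 : ¬ (q : ℝ) ^ j ≤ (p : ℝ) ^ (i - 1) := fun h7 => hcase ⟨h5, h7⟩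
              exact (not_le.1 h6).le)
            (fun j' hj' => h2 j' (by omega)) m m1 ⟨x1, ⟨g1, g2⟩, g3⟩
          refine ⟨k, k', b, e1, e2, e3, fun y hy => ?_⟩
          obtain ⟨f1, f2⟩ := e4 y hy
          refine ⟨g4 y f1, fun j' hj' hKj' => ?_⟩
          rcases Nat.lt_or_ge j' j with h7 | h7
          · exact f2 j' h7 hKj'
          · have : j' = j := by omega
            subst this
            exact ⟨m1, f1⟩
      · obtain ⟨k, k', b, e1, e2, e3, e4⟩ := ih i a j (by omega) hi hKa (by omega) h1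
          (fun j' hj' => h2 j' (by omega)) m m' hx
        refine ⟨k, k', b, e1, e2, e3, fun y hy => ?_⟩
        obtain ⟨f1, f2⟩ := e4 y hy
        refine ⟨f1, fun j' hj' hKj' => ?_⟩
        rcases Nat.lt_or_ge j' j with h7 | h7
        · exact f2 j' h7 hKj'
        · have : j' = j := by omega
          subst this
          exact absurd hKj' hKj

/-- the leftmost waves -/
theorem left {p : ℕ} (hp1 : 1 < p) {i I : ℕ} (hi : i ≤ I) (m : ℤ) {y : ℝ}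
    (hy : Wv ((p : ℝ) ^ i) 0 (m * (p : ℤ) ^ (I - i)) y) :
    Wv ((p : ℝ) ^ I) 0 m y ∧ ∀ i', i ≤ i' → i' ≤ I → Gd ((p : ℝ) ^ i') y := by
  have hpR : (1 : ℝ) ≤ p := by exact_mod_cast hp1.le
  have key : ∀ i', i ≤ i' → i' ≤ I → Wv ((p : ℝ) ^ i') 0 (m * (p : ℤ) ^ (I - i')) y := by
    intro i' h1 h2
    have e : ∀ a, a ≤ I → ((m * (p : ℤ) ^ (I - a) : ℤ) : ℝ) * (p : ℝ) ^ a = m * (p : ℝ) ^ I := by
      intro a ha
      push_cast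
      rw [mul_assoc, ← pow_add]
      congr 2
      omega
    obtain ⟨h3, h4⟩ := hy
    rw [e i hi] at h3 h4
    have h5 : (p : ℝ) ^ i ≤ (p : ℝ) ^ i' := pow_le_pow_right₀ hpR h1
    refine ⟨?_, ?_⟩
    · rw [e i' h2]
      exact h3
    · rw [e i' h2]
      linarith
  refine ⟨?_, fun i' h1 h2 => ⟨_, key i' h1 h2⟩⟩
  have := key I hi le_rfl
  rwa [Nat.sub_self, pow_zero, mul_one] at this

/-- both bases together, from `m p ^ I` on -/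
theorem run {p q : ℕ} (hp : Odd p) (hq : Odd q) (hp1 : 1 < p) (hq1 : 1 < q) {δ : ℝ}
    (hδ : 0 ≤ δ) (K : ℕ → Prop) (hK4 : ∀ j, K j → 4 * δ ≤ (q : ℝ) ^ j)
    (hsep : ∀ j, K j → ∀ i, ((p : ℝ) ^ i ≤ (q : ℝ) ^ j → (p : ℝ) ^ i + 4 * δ ≤ (q : ℝ) ^ j) ∧
      ((q : ℝ) ^ j ≤ (p : ℝ) ^ i → (q : ℝ) ^ j + 4 * δ ≤ (p : ℝ) ^ i)) {i2 j₀ I : ℕ}
    (hj₀ : K j₀) (hjI : (q : ℝ) ^ j₀ ≤ (p : ℝ) ^ I) (hi2 : (p : ℝ) ^ i2 ≤ (q : ℝ) ^ j₀) (m : ℤ) :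
    ∃ (k k' : ℤ) (b : ℕ), (∃ x, Wv ((p : ℝ) ^ i2) 0 k x ∧ Wv ((q : ℝ) ^ b) δ k' x) ∧
      (∀ y, Wv ((p : ℝ) ^ i2) 0 k y → Wv ((p : ℝ) ^ I) 0 m y ∧
        ∀ i', i2 ≤ i' → i' ≤ I → Gd ((p : ℝ) ^ i') y) ∧
      (∀ y, Wv ((q : ℝ) ^ b) 0 k' y → ∀ j' ≤ j₀, K j' → Gd ((q : ℝ) ^ j') y) := by
  have hpR : (1 : ℝ) < p := by exact_mod_cast hp1
  have hqR : (1 : ℝ) ≤ q := by exact_mod_cast hq1.le
  classical
  have hex : ∃ i, (q : ℝ) ^ j₀ ≤ (p : ℝ) ^ i := ⟨I, hjI⟩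
  obtain ⟨i1, hi1⟩ : ∃ i1, i1 = Nat.find hex := ⟨_, rfl⟩
  have h1 : (q : ℝ) ^ j₀ ≤ (p : ℝ) ^ i1 := by
    rw [hi1]
    exact Nat.find_spec hex
  have h2 : ∀ i < i1, (p : ℝ) ^ i < (q : ℝ) ^ j₀ := fun i hi =>
    not_le.1 (Nat.find_min hex (by rw [← hi1]; exact hi))
  have h3 : i1 ≤ I := by
    rw [hi1]
    exact Nat.find_min' hex hjI
  have h4 : i2 ≤ i1 := by
    by_contra hcon
    push Not at hcon
    have h5 : (p : ℝ) ^ i1 < (p : ℝ) ^ i2 := pow_lt_pow_right₀ hpR hcon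
    linarith
  have h5 := (hsep j₀ hj₀ i1).2 h1
  have hq0 : (0 : ℝ) < (q : ℝ) ^ j₀ := by positivity
  obtain ⟨m', x, g1, g2, g3⟩ := meet (u := (q : ℝ) ^ j₀) (ε := δ)
    (l := ((m * (p : ℤ) ^ (I - i1) : ℤ) : ℝ) * (p : ℝ) ^ i1)
    (h := ((m * (p : ℤ) ^ (I - i1) : ℤ) : ℝ) * (p : ℝ) ^ i1 + (p : ℝ) ^ i1 / 2) hq0 (hK4 j₀ hj₀)
    (by linarith) hδ
  obtain ⟨k, k', b, e1, e2, e3, e4⟩ := win hp hq hp1 hq1 hδ K hK4 hsep i2 (i1 + j₀) i1 j₀ j₀ rfl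
    h4 hj₀ le_rfl (fun h6 => (h2 (i1 - 1) (by omega)).le)
    (fun j' hj' => (pow_le_pow_right₀ hqR hj'.le).trans h1) (m * (p : ℤ) ^ (I - i1)) m'
    ⟨x, ⟨by linarith, by linarith⟩, g3⟩
  refine ⟨k, k', b, e2, fun y hy => ?_, fun y hy j' hj' hKj' => ?_⟩
  · obtain ⟨f1, f2⟩ := e3 y hy
    obtain ⟨f3, f4⟩ := left hp1 h3 m f1
    refine ⟨f3, fun i' h6 h7 => ?_⟩
    rcases Nat.lt_or_ge i1 i' with h8 | h8
    · exact f4 i' h8.le h7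
    · exact f2 i' h6 h8
  · obtain ⟨f1, f2⟩ := e4 y hy
    rcases Nat.lt_or_ge j' j₀ with h8 | h8
    · exact f2 j' h8 hKj'
    · have : j' = j₀ := le_antisymm hj' h8
      subst this
      exact ⟨m', f1⟩

end Pool.Agent.Helper46.TB

namespace Pool.Agent.Helper97.TB

open Pool.Agent.Helper46.TB

private theorem good_of_gd {s x : ℝ} (h : Gd s x) : Good s 0 x := by
  obtain ⟨m, h1, h2⟩ := h
  exact ⟨m, by linarith, h2⟩

/-- A window in which no scale of the first base is lost. -/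
theorem window_exact {p q : ℕ} (hp : Odd p) (hq : Odd q) (hp1 : 1 < p) (hq1 : 1 < q) {δ w : ℝ}
    (hδ : 0 ≤ δ) (hδw : 4 * δ ≤ w) {keep : ℕ → Prop}
    (hkeep : ∀ j, keep j → w ≤ (q : ℝ) ^ j → ∀ i, 4 * δ ≤ |(p : ℝ) ^ i - (q : ℝ) ^ j|)
    {j₀ I iend : ℕ} (hj₀ : keep j₀) (hwj : w ≤ (q : ℝ) ^ j₀) (hjI : (q : ℝ) ^ j₀ ≤ (p : ℝ) ^ I)
    (hend : (p : ℝ) ^ iend ≤ 2 * δ) (m : ℤ) :
    ∃ m' : ℤ, ∀ x : ℝ, (m' : ℝ) * (p : ℝ) ^ iend ≤ x →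
      x ≤ m' * (p : ℝ) ^ iend + (p : ℝ) ^ iend / 2 →
      ((m : ℝ) * (p : ℝ) ^ I ≤ x ∧ x ≤ m * (p : ℝ) ^ I + (p : ℝ) ^ I / 2) ∧
      (∀ i, iend ≤ i → i ≤ I → Good ((p : ℝ) ^ i) 0 x) ∧
      (∀ j ≤ j₀, keep j → w ≤ (q : ℝ) ^ j → Good ((q : ℝ) ^ j) 0 x) := by
  obtain ⟨k, k', b, ⟨x0, hx1, hx2⟩, h3, h4⟩ := run hp hq hp1 hq1 hδ
    (fun j => keep j ∧ w ≤ (q : ℝ) ^ j) (fun j hj => hδw.trans hj.2)
    (fun j hj i => by
      have h := hkeep j hj.1 hj.2 i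
      constructor
      · intro hle
        rw [abs_of_nonpos (by linarith)] at h
        linarith
      · intro hle
        rw [abs_of_nonneg (by linarith)] at h
        linarith) (i2 := iend) (j₀ := j₀) (I := I) ⟨hj₀, hwj⟩ hjI (by linarith) m
  refine ⟨k, fun x hx hx' => ?_⟩
  have hw : Wv ((p : ℝ) ^ iend) 0 k x := ⟨by linarith, by linarith⟩
  obtain ⟨f1, f2⟩ := h3 x hw
  refine ⟨⟨by linarith [f1.1], by linarith [f1.2]⟩, fun i h5 h6 => good_of_gd (f2 i h5 h6), ?_⟩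
  intro j hj hk hwj'
  refine good_of_gd (h4 x ⟨?_, ?_⟩ j hj ⟨hk, hwj'⟩)
  · linarith [hx1.1, hx1.2, hx2.1, hx2.2]
  · linarith [hx1.1, hx1.2, hx2.1, hx2.2]

/-- The last window, without shrinking. -/
theorem last_exact {p q : ℕ} (hp : Odd p) (hq : Odd q) (hp1 : 1 < p) (hq1 : 1 < q)
    {j₀ I : ℕ} (hjI : (q : ℝ) ^ j₀ ≤ (p : ℝ) ^ I) (m : ℤ) :
    ∃ x : ℝ, ((m : ℝ) * (p : ℝ) ^ I ≤ x ∧ x ≤ m * (p : ℝ) ^ I + (p : ℝ) ^ I / 2) ∧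
      (∀ i ≤ I, Good ((p : ℝ) ^ i) 0 x) ∧ (∀ j ≤ j₀, Good ((q : ℝ) ^ j) 0 x) := by
  have hqR : (1 : ℝ) ≤ q := by exact_mod_cast hq1.le
  obtain ⟨k, k', b, ⟨x0, hx1, hx2⟩, h3, h4⟩ := run hp hq hp1 hq1 le_rfl
    (fun _ => True) (fun j _ => by rw [mul_zero]; positivity)
    (fun j _ i => ⟨fun h => by linarith, fun h => by linarith⟩) (i2 := 0) (j₀ := j₀) (I := I)
    trivial hjI (by rw [pow_zero]; exact one_le_pow₀ hqR) m
  obtain ⟨f1, f2⟩ := h3 x0 hx1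
  refine ⟨x0, ⟨by linarith [f1.1], by linarith [f1.2]⟩,
    fun i h6 => good_of_gd (f2 i (Nat.zero_le _) h6),
    fun j hj => good_of_gd (h4 x0 hx2 j hj trivial)⟩

end Pool.Agent.Helper97.TB
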